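import Pool.Agent.X130.SJ.Cplx

/-!
# MP_548236_gt: dimension free comparison of the cylindrical capacity and the Gromov width for
convex domains of `ℂᴺ` with a complex symmetry

For a convex domain `K ⊆ ℝ²ᴺ = ℂᴺ`, `N = n + 1`, the cylindrical capacity is at most

* `4 d / π` times the Gromov width if `K` is symmetric about `a` and `i (K - a) ⊆ d (K - a)`;
* `(m / π) tan (π / m)` times the Gromov width if `K` is invariant under the rotation by
  `exp (2 π i / m)` about `a`, `m ≥ 4` even (`4 / π` for `m = 4`, and the factor tends to `1`).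
-/

set_option autoImplicit false

namespace Pool.Agent.Results.MP_548236_gt.ComplexInvariant

open Pool.Agent.Y52.SJ

/-- the multiplication by `cos t + i sin t` in `ℂᴺ`: `q + i p ↦ (cos t + i sin t) (q + i p)` -/
noncomputable def rotate {N : ℕ} (t : ℝ) (x : (Fin N → ℝ) × (Fin N → ℝ)) :
    (Fin N → ℝ) × (Fin N → ℝ) :=
  (fun j => Real.cos t * x.1 j - Real.sin t * x.2 j,
    fun j => Real.sin t * x.1 j + Real.cos t * x.2 j)

/-- the multiplication by `i` in `ℂᴺ`: `q + i p ↦ -p + i q` -/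
def mulI {N : ℕ} (z : (Fin N → ℝ) × (Fin N → ℝ)) : (Fin N → ℝ) × (Fin N → ℝ) := (-z.2, z.1)

theorem result (n : ℕ) (K : Set ((Fin (n + 1) → ℝ) × (Fin (n + 1) → ℝ))) (hKo : IsOpen K)
    (hKc : Convex ℝ K) (hKb : Bornology.IsBounded K) (hKn : K.Nonempty)
    (a : (Fin (n + 1) → ℝ) × (Fin (n + 1) → ℝ)) :
    (∀ d : ℝ, 0 < d → (∀ x ∈ K, (2 : ℝ) • a - x ∈ K) → (∀ x ∈ K, a + d⁻¹ • mulI (x - a) ∈ K) →
      cylCapacity K ≤ ENNReal.ofReal (4 * d / Real.pi) * gromovWidth K) ∧
    (∀ m : ℕ, 4 ≤ m → Even m → (∀ x ∈ K, a + rotate (2 * Real.pi / m) (x - a) ∈ K) →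
      cylCapacity K ≤ ENNReal.ofReal (m / Real.pi * Real.tan (Real.pi / m)) * gromovWidth K) := by
  refine ⟨fun d hd hs hi => X130.SJ.turns hKo hKc hKb hKn a hs hd hi, fun m hm hme hi => ?_⟩
  obtain ⟨M, rfl⟩ := hme
  have hM : 2 ≤ M := by omega
  have hM0 : (0 : ℝ) < M := by
    have : 0 < M := by omega
    exact_mod_cast this
  have hcast : ((M + M : ℕ) : ℝ) = 2 * M := by push_cast; ring
  have hrote : ∀ (t : ℝ) (z : (Fin (n + 1) → ℝ) × (Fin (n + 1) → ℝ)),
      rotate t z = X315.Vit.rot t z := by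
    intro t z
    unfold rotate X315.Vit.rot TH845.Vit.J
    ext j <;> simp <;> ring
  have h := X130.SJ.rotates hKo hKc hKb hKn a hM (fun x hx => by
    have h1 := hi x hx
    have e : 2 * Real.pi / ((M + M : ℕ) : ℝ) = Real.pi / M := by
      rw [hcast]
      field_simp
    rwa [e, hrote] at h1)
  rw [hcast]
  exact h

end Pool.Agent.Results.MP_548236_gt.ComplexInvariant
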